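import Mathlib
import Pool.Agent.Results.MP_ab635e_lc.Full

set_option autoImplicit false

/-!
# PAC learnability, total variation compactness and measure classes
-/

open MeasureTheory Filter Topology ProbabilityTheory
open scoped ENNReal NNReal

namespace Pool.Agent.Y626.PAC

open Pool.Agent.Results.MP_ab635e_lc.Full

variable {X : Type*} [MeasurableSpace X]

/-- Learnability with respect to one known distribution. -/
def Learn1 (F : Set (X → unitInterval)) (Q : ProbabilityMeasure X) : Prop :=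
  ∀ ε : ℝ, 0 < ε → ∀ δ : ℝ, 0 < δ → ∃ (M : ℕ) (B : (Fin M → X × unitInterval) → F),
    ∀ f ∈ F, fail Q B f ε ≤ ENNReal.ofReal δ

lemma learn1_of_pacLearnable {F : Set (X → unitInterval)} {Pf : Set (ProbabilityMeasure X)}
    (h : PACLearnable F Pf) {P : ProbabilityMeasure X} (hP : P ∈ Pf) : Learn1 F P := by
  obtain ⟨A, hA⟩ := h
  intro ε hε δ hδ
  have h1 := (hA ε hε).eventually_lt_const (ENNReal.ofReal_pos.2 hδ)
  obtain ⟨m, hm⟩ := h1.exists
  refine ⟨m, A m, fun f hf => le_trans ?_ hm.le⟩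
  exact le_iSup₂_of_le P hP (le_iSup₂_of_le f hf le_rfl)

lemma fail_castLE {F : Set (X → unitInterval)} {m M : ℕ} (hmM : m ≤ M)
    (Q : ProbabilityMeasure X) (B : (Fin m → X × unitInterval) → F) (f : X → unitInterval)
    (ε : ℝ) :
    fail Q (fun z : Fin M → X × unitInterval => B fun i => z (Fin.castLE hmM i)) f ε ≤
      fail Q B f ε :=
  pi_comp_le (Q : Measure X) (Fin.castLE hmM) (Fin.castLE_injective hmM)
    {y | ε < dist1 Q f (B fun j => (y j, f (y j)))}

/-- The pseudometric of total variation. -/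
noncomputable def pm (X : Type*) [MeasurableSpace X] :
    PseudoMetricSpace (ProbabilityMeasure X) where
  dist := rho
  dist_self := rho_self
  dist_comm := rho_comm
  dist_triangle := rho_triangle

/-- The total variation distance is complete. -/
theorem exists_limit (P : ℕ → ProbabilityMeasure X)
    (h : ∀ ε : ℝ, 0 < ε → ∃ N, ∀ m ≥ N, ∀ n ≥ N, rho (P m) (P n) < ε) :
    ∃ Q : ProbabilityMeasure X, ∀ ε : ℝ, 0 < ε → ∃ N, ∀ n ≥ N, rho (P n) Q ≤ ε := by
  have hc : ∀ A : Set X, MeasurableSet A →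
      ∃ l : ℝ, Tendsto (fun n => (P n : Measure X).real A) atTop (𝓝 l) := by
    intro A hA
    apply cauchySeq_tendsto_of_complete
    rw [Metric.cauchySeq_iff]
    intro ε hε
    obtain ⟨N, hN⟩ := h ε hε
    exact ⟨N, fun m hm n hn => by
      rw [Real.dist_eq]; exact (abs_sub_le_rho _ _ hA).trans_lt (hN m hm n hn)⟩
  choose! L hL using hc
  have hunif : ∀ ε : ℝ, 0 < ε → ∃ N, ∀ n ≥ N, ∀ A, MeasurableSet A →
      |(P n : Measure X).real A - L A| ≤ ε := by
    intro ε hε
    obtain ⟨N, hN⟩ := h ε hε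
    refine ⟨N, fun n hn A hA => ?_⟩
    have ht : Tendsto (fun m => |(P n : Measure X).real A - (P m : Measure X).real A|) atTop
        (𝓝 |(P n : Measure X).real A - L A|) := ((tendsto_const_nhds).sub (hL A hA)).abs
    refine le_of_tendsto ht ?_
    filter_upwards [eventually_ge_atTop N] with m hm
    exact (abs_sub_le_rho _ _ hA).trans (hN n hn m hm).le
  have hL0 : ∀ A, MeasurableSet A → 0 ≤ L A := fun A hA =>
    ge_of_tendsto' (hL A hA) fun n => measureReal_nonneg
  have hLuniv : L Set.univ = 1 :=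
    tendsto_nhds_unique (hL _ MeasurableSet.univ) (by simp)
  have hLempty : L ∅ = 0 :=
    tendsto_nhds_unique (hL _ MeasurableSet.empty) (by simp)
  have hLadd : ∀ A B, MeasurableSet A → MeasurableSet B → Disjoint A B →
      L (A ∪ B) = L A + L B := by
    intro A B hA hB hd
    refine tendsto_nhds_unique (hL _ (hA.union hB)) ?_
    refine ((hL A hA).add (hL B hB)).congr fun n => ?_
    rw [measureReal_union hd hB]
  have hsum : ∀ A : ℕ → Set X, (∀ i, MeasurableSet (A i)) → Pairwise (Function.onFun Disjoint A) →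
      HasSum (fun i => L (A i)) (L (⋃ i, A i)) := by
    intro A hA hd
    rw [hasSum_iff_tendsto_nat_of_nonneg (fun i => hL0 _ (hA i))]
    have hB : ∀ k, MeasurableSet (⋃ i ∈ Finset.range k, A i) := fun k =>
      Finset.measurableSet_biUnion _ fun i _ => hA i
    have hfin : ∀ k, ∑ i ∈ Finset.range k, L (A i) = L (⋃ i ∈ Finset.range k, A i) := by
      intro k
      induction k with
      | zero => simp [hLempty]
      | succ k ih =>
        rw [Finset.sum_range_succ, ih, Finset.range_add_one, Finset.set_biUnion_insert,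
          Set.union_comm, hLadd _ _ (hB k) (hA k)]
        refine Set.disjoint_iUnion₂_left.2 fun i hi => hd ?_
        exact (Finset.mem_range.1 hi).ne
    simp_rw [hfin]
    have hcont : ∀ n, Tendsto (fun k => (P n : Measure X).real (⋃ i ∈ Finset.range k, A i)) atTop
        (𝓝 ((P n : Measure X).real (⋃ i, A i))) := by
      intro n
      have h1 : Tendsto (fun k => (P n : Measure X) (⋃ i ∈ Finset.range k, A i)) atTop
          (𝓝 ((P n : Measure X) (⋃ k, ⋃ i ∈ Finset.range k, A i))) := by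
        refine tendsto_measure_iUnion_atTop fun a b hab => ?_
        exact Set.biUnion_subset_biUnion_left fun i hi => by
          simp only [Finset.coe_range, Set.mem_Iio] at hi ⊢
          exact lt_of_lt_of_le hi hab
      have h2 : (⋃ k, ⋃ i ∈ Finset.range k, A i) = ⋃ i, A i := by
        ext x
        simp only [Set.mem_iUnion, Finset.mem_range, exists_prop]
        constructor
        · rintro ⟨k, i, -, hx⟩
          exact ⟨i, hx⟩
        · rintro ⟨i, hx⟩
          exact ⟨i + 1, i, Nat.lt_succ_self i, hx⟩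
      rw [h2] at h1
      exact (ENNReal.tendsto_toReal (measure_ne_top _ _)).comp h1
    rw [Metric.tendsto_atTop]
    intro ε hε
    obtain ⟨n, hn⟩ := hunif (ε / 4) (by linarith)
    obtain ⟨K, hK⟩ := (Metric.tendsto_atTop.1 (hcont n)) (ε / 4) (by linarith)
    refine ⟨K, fun k hk => ?_⟩
    have e1 := hn n le_rfl _ (hB k)
    have e2 := hn n le_rfl _ (MeasurableSet.iUnion hA)
    have e3 := hK k hk
    rw [Real.dist_eq] at e3 ⊢
    rw [abs_le] at e1 e2
    rw [abs_lt] at e3 ⊢
    constructor <;> linarith [e1.1, e1.2, e2.1, e2.2, e3.1, e3.2]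
  let μ : Measure X := Measure.ofMeasurable (fun A _ => ENNReal.ofReal (L A)) (by simp [hLempty])
    (by
      intro A hA hd
      rw [← (hsum A hA hd).tsum_eq, ENNReal.ofReal_tsum_of_nonneg (fun i => hL0 _ (hA i))
        (hsum A hA hd).summable])
  have hμ : ∀ A, MeasurableSet A → μ A = ENNReal.ofReal (L A) := fun A hA =>
    Measure.ofMeasurable_apply A hA
  have hprob : IsProbabilityMeasure μ := ⟨by rw [hμ _ MeasurableSet.univ, hLuniv]; simp⟩
  obtain ⟨Q, hQ⟩ : ∃ Q : ProbabilityMeasure X, (Q : Measure X) = μ := ⟨⟨μ, hprob⟩, rfl⟩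
  refine ⟨Q, fun ε hε => ?_⟩
  obtain ⟨N, hN⟩ := hunif ε hε
  refine ⟨N, fun n hn => rho_le fun A hA => ?_⟩
  have : (Q : Measure X).real A = L A := by
    change ((Q : Measure X) A).toReal = L A
    rw [hQ, hμ A hA, ENNReal.toReal_ofReal (hL0 A hA)]
  rw [this]
  exact hN n hn A hA

/-- Open covers of the closure of a totally bounded family. -/
theorem finite_cover {Qf : Set (ProbabilityMeasure X)} (h : TotBdd Qf)
    (r : ProbabilityMeasure X → ℝ) (hr : ∀ Q ∈ tvClosure Qf, 0 < r Q) :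
    ∃ t : Finset (ProbabilityMeasure X), (∀ Q ∈ t, Q ∈ tvClosure Qf) ∧
      ∀ P ∈ Qf, ∃ Q ∈ t, rho P Q < r Q := by
  letI := pm X
  haveI : CompleteSpace (ProbabilityMeasure X) := by
    refine Metric.complete_of_cauchySeq_tendsto fun u hu => ?_
    obtain ⟨Q, hQ⟩ := exists_limit u fun ε hε => Metric.cauchySeq_iff.1 hu ε hε
    refine ⟨Q, Metric.tendsto_atTop.2 fun ε hε => ?_⟩
    obtain ⟨N, hN⟩ := hQ (ε / 2) (by linarith)
    exact ⟨N, fun n hn => lt_of_le_of_lt (hN n hn) (by linarith)⟩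
  have hcl : tvClosure Qf = closure Qf := by
    ext Q
    rw [Metric.mem_closure_iff]
    rfl
  have htb : TotallyBounded Qf := by
    rw [Metric.totallyBounded_iff]
    intro ε hε
    obtain ⟨t, ht⟩ := h ε hε
    refine ⟨↑t, t.finite_toSet, fun P hP => ?_⟩
    obtain ⟨Q, hQ, hPQ⟩ := ht P hP
    exact Set.mem_iUnion₂.2 ⟨Q, hQ, hPQ⟩
  have hcomp : IsCompact (closure Qf) :=
    htb.closure.isCompact_of_isClosed isClosed_closure
  rw [hcl] at hr ⊢
  obtain ⟨t, ht1, ht2⟩ := hcomp.elim_nhds_subcover (fun Q => Metric.ball Q (r Q))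
    (fun Q hQ => Metric.ball_mem_nhds Q (hr Q hQ))
  refine ⟨t, ht1, fun P hP => ?_⟩
  obtain ⟨Q, hQ, hPQ⟩ := Set.mem_iUnion₂.1 (ht2 (subset_closure hP))
  exact ⟨Q, hQ, hPQ⟩

lemma nat_mul_ofReal_le {m : ℕ} {x y : ℝ} (h : (m : ℝ) * x ≤ y) :
    (m : ℝ≥0∞) * ENNReal.ofReal x ≤ ENNReal.ofReal y := by
  calc (m : ℝ≥0∞) * ENNReal.ofReal x = ENNReal.ofReal (m * x) := by
        rw [ENNReal.ofReal_mul (Nat.cast_nonneg m), ENNReal.ofReal_natCast]
    _ ≤ ENNReal.ofReal y := ENNReal.ofReal_le_ofReal h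

lemma nat_mul_div_le {m : ℕ} {x y : ℝ} (hy : 0 ≤ y) (h : x ≤ y / (m + 1)) :
    (m : ℝ) * x ≤ y := by
  have h5 : (0 : ℝ) ≤ m := Nat.cast_nonneg m
  calc (m : ℝ) * x ≤ m * (y / (m + 1)) := by gcongr
    _ = y * (m / (m + 1)) := by ring
    _ ≤ y * 1 := by
        have : (m : ℝ) / (m + 1) ≤ 1 := by
          rw [div_le_one (by positivity)]; linarith
        gcongr
    _ = y := mul_one _

/-- Learnability for every single member of the closure gives uniform sample sizes. -/
theorem knownLearn_of_closure {F : Set (X → unitInterval)} (hF : ∀ f ∈ F, Measurable f)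
    (hne : Nonempty F) {Qf : Set (ProbabilityMeasure X)} (h : TotBdd Qf)
    (hl : ∀ Q ∈ tvClosure Qf, Learn1 F Q) : KnownLearn F Qf := by
  classical
  intro ε hε δ hδ
  have h1 : ∀ Q : ProbabilityMeasure X, ∃ (M : ℕ) (B : (Fin M → X × unitInterval) → F),
      Q ∈ tvClosure Qf → ∀ f ∈ F, fail Q B f (ε / 2) ≤ ENNReal.ofReal (δ / 2) := by
    intro Q
    by_cases hQ : Q ∈ tvClosure Qf
    · obtain ⟨M, B, hB⟩ := hl Q hQ (ε / 2) (by linarith) (δ / 2) (by linarith)
      exact ⟨M, B, fun _ => hB⟩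
    · exact ⟨0, fun _ => hne.some, fun h => absurd h hQ⟩
  choose M B hB using h1
  obtain ⟨t, ht1, ht2⟩ := finite_cover h
    (fun Q => min (ε / 2) ((δ / 2) / (M Q + 1))) (fun Q _ => by positivity)
  refine ⟨t.sup M, fun P hP => ?_⟩
  obtain ⟨Q, hQ, hPQ⟩ := ht2 P hP
  have hle : M Q ≤ t.sup M := Finset.le_sup hQ
  refine ⟨fun z => B Q fun i => z (Fin.castLE hle i), fun f hf =>
    (fail_castLE hle P (B Q) f ε).trans ?_⟩
  have h2 : rho P Q ≤ ε / 2 := hPQ.le.trans (min_le_left _ _)
  have h3 : rho P Q ≤ (δ / 2) / (M Q + 1) := hPQ.le.trans (min_le_right _ _)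
  refine (fail_le_of_rho hF P Q (B Q) hf (ε := ε) (ε' := ε / 2) (by linarith)).trans ?_
  calc fail Q (B Q) f (ε / 2) + (M Q : ℝ≥0∞) * ENNReal.ofReal (rho P Q)
      ≤ ENNReal.ofReal (δ / 2) + ENNReal.ofReal (δ / 2) :=
        add_le_add (hB Q (ht1 Q hQ) f hf)
          (nat_mul_ofReal_le (nat_mul_div_le (by linarith) h3))
    _ = ENNReal.ofReal δ := by
        rw [← ENNReal.ofReal_add (by linarith) (by linarith)]
        congr 1; ring

theorem pacLearnable_of_closure {F : Set (X → unitInterval)} (hF : ∀ f ∈ F, Measurable f)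
    (hne : Nonempty F) {Qf : Set (ProbabilityMeasure X)} (h : TotBdd Qf)
    (hl : ∀ Q ∈ tvClosure Qf, Learn1 F Q) : PACLearnable F Qf :=
  pacLearnable_of_fixedLearn hne
    (fixedLearn_of_known hF hne (intTB_of_totBdd h) (knownLearn_of_closure hF hne h hl))

/-- Quantitative absolute continuity for functions between `0` and `1`. -/
lemma lintegral_transfer {μ ν : Measure X} [IsFiniteMeasure μ] [IsFiniteMeasure ν]
    (hνμ : ν ≪ μ) (hν : ν Set.univ ≤ 1) {ε : ℝ} (hε : 0 < ε) :
    ∃ θ : ℝ, 0 < θ ∧ ∀ u : X → ℝ≥0∞, Measurable u → (∀ x, u x ≤ 1) →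
      ∫⁻ x, u x ∂μ ≤ ENNReal.ofReal θ → ∫⁻ x, u x ∂ν ≤ ENNReal.ofReal ε := by
  set κ := ν.rnDeriv μ with hκ
  have hQ : μ.withDensity κ = ν := Measure.withDensity_rnDeriv_eq _ _ hνμ
  have hfin : ∫⁻ x, κ x ∂μ ≠ ⊤ := by
    have : ∫⁻ x, κ x ∂μ = ν Set.univ := by
      rw [← hQ, withDensity_apply _ MeasurableSet.univ, Measure.restrict_univ]
    rw [this]
    exact measure_ne_top _ _
  have hε2 : ENNReal.ofReal (ε / 2) ≠ 0 := by
    rw [Ne, ENNReal.ofReal_eq_zero, not_le]; linarith
  obtain ⟨d, hd, hd2⟩ := exists_pos_setLIntegral_lt_of_measure_lt hfin hε2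
  obtain ⟨d', hd'0, hd'⟩ := ENNReal.lt_iff_exists_nnreal_btwn.1 hd
  have hd'pos : (0 : ℝ) < d' := by
    have : (0 : ℝ≥0) < d' := by exact_mod_cast hd'0
    exact_mod_cast this
  refine ⟨d' * (ε / 2), by positivity, fun u hum hu1 hR1 => ?_⟩
  set E : Set X := {x | ENNReal.ofReal (ε / 2) ≤ u x} with hE
  have hEm : MeasurableSet E := measurableSet_le measurable_const hum
  have hRE : μ E < d := by
    have h1 : μ E ≤ (∫⁻ x, u x ∂μ) / ENNReal.ofReal (ε / 2) :=
      meas_ge_le_lintegral_div hum.aemeasurable hε2 ENNReal.ofReal_ne_top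
    refine lt_of_le_of_lt (h1.trans ?_) hd'
    rw [ENNReal.div_le_iff hε2 ENNReal.ofReal_ne_top]
    refine hR1.trans (le_of_eq ?_)
    rw [ENNReal.ofReal_mul (NNReal.coe_nonneg d'), ENNReal.ofReal_coe_nnreal]
  have hQE : ν E ≤ ENNReal.ofReal (ε / 2) := by
    rw [← hQ, withDensity_apply _ hEm]
    exact (hd2 E hRE).le
  calc ∫⁻ x, u x ∂ν
      ≤ ∫⁻ x, (ENNReal.ofReal (ε / 2) + E.indicator (fun _ => 1) x) ∂ν := by
        refine lintegral_mono fun x => ?_
        by_cases hx : x ∈ E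
        · rw [Set.indicator_of_mem hx]
          exact (hu1 x).trans le_add_self
        · rw [Set.indicator_of_notMem hx, add_zero]
          exact (not_le.1 hx).le
    _ = ENNReal.ofReal (ε / 2) * ν Set.univ + ν E := by
        rw [lintegral_add_left measurable_const, lintegral_const,
          lintegral_indicator hEm, lintegral_const]
        simp
    _ ≤ ENNReal.ofReal (ε / 2) * 1 + ENNReal.ofReal (ε / 2) := by gcongr
    _ = ENNReal.ofReal ε := by
        rw [mul_one, ← ENNReal.ofReal_add (by linarith) (by linarith)]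
        congr 1; ring

/-- Exhaustion: finitely many members of a family that detects all sets of positive
`Q`-measure carry almost all of `Q`. -/
lemma exists_finite_carrier {Q : ProbabilityMeasure X} {Rs : Set (ProbabilityMeasure X)}
    (h1 : ∀ R ∈ Rs, (R : Measure X) ≪ (Q : Measure X))
    (h2 : ∀ E : Set X, MeasurableSet E → (Q : Measure X) E ≠ 0 →
      ∃ R ∈ Rs, (R : Measure X) E ≠ 0) {ε : ℝ} (hε : 0 < ε) :
    ∃ t : Finset (ProbabilityMeasure X), (∀ R ∈ t, R ∈ Rs) ∧
      (Q : Measure X) (⋃ R ∈ t, {x | 0 < (R : Measure X).rnDeriv (Q : Measure X) x})ᶜ ≤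
        ENNReal.ofReal ε := by
  classical
  let S : ProbabilityMeasure X → Set X := fun R =>
    {x | 0 < (R : Measure X).rnDeriv (Q : Measure X) x}
  have hS : ∀ R, MeasurableSet (S R) := fun R =>
    measurableSet_lt measurable_const (Measure.measurable_rnDeriv _ _)
  let G : Finset (ProbabilityMeasure X) → Set X := fun t => ⋃ R ∈ t, S R
  have hG : ∀ t, MeasurableSet (G t) := fun t => Finset.measurableSet_biUnion _ fun R _ => hS R
  let T : Set (Finset (ProbabilityMeasure X)) := {t | ∀ R ∈ t, R ∈ Rs}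
  let V : Set ℝ≥0∞ := (fun t => (Q : Measure X) (G t)) '' T
  have hV : V.Nonempty := ⟨_, ∅, by simp [T], rfl⟩
  obtain ⟨v, -, hv, hvV⟩ := exists_seq_tendsto_sSup hV (OrderTop.bddAbove V)
  choose t htT htv using hvV
  have hα1 : sSup V ≤ 1 := by
    refine sSup_le ?_
    rintro _ ⟨t, -, rfl⟩
    exact prob_le_one
  have hαtop : sSup V ≠ ⊤ := (hα1.trans_lt ENNReal.one_lt_top).ne
  set U : Set X := ⋃ n, G (t n) with hU
  have hUm : MeasurableSet U := MeasurableSet.iUnion fun n => hG _
  have hnull : ∀ R ∈ Rs, (Q : Measure X) (S R \ U) = 0 := by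
    intro R hR
    have h3 : ∀ n, v n + (Q : Measure X) (S R \ U) ≤ sSup V := by
      intro n
      have h4 : (Q : Measure X) (G (insert R (t n))) ≤ sSup V := by
        refine le_sSup ⟨insert R (t n), ?_, rfl⟩
        intro R' hR'
        rcases Finset.mem_insert.1 hR' with rfl | h5
        · exact hR
        · exact htT n R' h5
      refine le_trans ?_ h4
      rw [← htv n]
      simp only
      rw [← measure_union ?_ ((hS R).diff hUm)]
      · refine measure_mono ?_
        rintro x (hx | hx)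
        · obtain ⟨R', hR', hx'⟩ := Set.mem_iUnion₂.1 hx
          exact Set.mem_iUnion₂.2 ⟨R', Finset.mem_insert_of_mem hR', hx'⟩
        · exact Set.mem_iUnion₂.2 ⟨R, Finset.mem_insert_self _ _, hx.1⟩
      · rw [Set.disjoint_left]
        intro x hx hx'
        exact hx'.2 (Set.mem_iUnion.2 ⟨n, hx⟩)
    have h5 : sSup V + (Q : Measure X) (S R \ U) ≤ sSup V := le_of_tendsto'
      (hv.add tendsto_const_nhds) h3
    by_contra hne
    exact absurd h5 (not_le.2 (ENNReal.lt_add_right hαtop hne))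
  have hUc : (Q : Measure X) Uᶜ = 0 := by
    by_contra hne
    obtain ⟨R, hR, hRE⟩ := h2 _ hUm.compl hne
    refine hRE ?_
    have hd : (Q : Measure X).withDensity ((R : Measure X).rnDeriv (Q : Measure X)) =
        (R : Measure X) := Measure.withDensity_rnDeriv_eq _ _ (h1 R hR)
    rw [← hd, withDensity_apply _ hUm.compl,
      lintegral_eq_zero_iff (Measure.measurable_rnDeriv _ _)]
    rw [Filter.EventuallyEq, ae_restrict_iff' hUm.compl, ae_iff]
    refine measure_mono_null ?_ (hnull R hR)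
    intro x hx
    simp only [Set.mem_ofPred_eq, Classical.not_imp, Pi.zero_apply] at hx
    exact ⟨pos_iff_ne_zero.2 hx.2, hx.1⟩
  have hU1 : (Q : Measure X) U = 1 := (prob_compl_eq_zero_iff hUm).1 hUc
  have hacc := tendsto_measure_iUnion_accumulate (μ := (Q : Measure X)) (f := fun n => G (t n))
  rw [← hU, hU1] at hacc
  have hlt : ENNReal.ofReal (1 - ε) < 1 := by
    rw [← ENNReal.ofReal_one]
    exact (ENNReal.ofReal_lt_ofReal_iff (by norm_num)).2 (by linarith)
  obtain ⟨k, hk⟩ := (hacc.eventually_const_lt hlt).exists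
  refine ⟨(Finset.range (k + 1)).biUnion t, ?_, ?_⟩
  · intro R hR
    obtain ⟨i, -, hi⟩ := Finset.mem_biUnion.1 hR
    exact htT i R hi
  · have hsub : Set.accumulate (fun n => G (t n)) k ⊆ G ((Finset.range (k + 1)).biUnion t) := by
      intro x hx
      obtain ⟨i, hi, hx'⟩ := Set.mem_accumulate.1 hx
      obtain ⟨R', hR', hx''⟩ := Set.mem_iUnion₂.1 hx'
      exact Set.mem_iUnion₂.2 ⟨R', Finset.mem_biUnion.2
        ⟨i, Finset.mem_range.2 (Nat.lt_succ_of_le hi), hR'⟩, hx''⟩
    have hlt2 : ENNReal.ofReal (1 - ε) < (Q : Measure X) (G ((Finset.range (k + 1)).biUnion t)) :=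
      hk.trans_le (measure_mono hsub)
    change (Q : Measure X) (G ((Finset.range (k + 1)).biUnion t))ᶜ ≤ ENNReal.ofReal ε
    rw [prob_compl_eq_one_sub (hG _), tsub_le_iff_right]
    rcases le_total ε 1 with h6 | h6
    · calc (1 : ℝ≥0∞) = ENNReal.ofReal ε + ENNReal.ofReal (1 - ε) := by
            rw [← ENNReal.ofReal_add hε.le (by linarith)]; simp
        _ ≤ _ := by gcongr
    · calc (1 : ℝ≥0∞) = ENNReal.ofReal 1 := by simp
        _ ≤ ENNReal.ofReal ε := ENNReal.ofReal_le_ofReal h6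
        _ ≤ _ := le_self_add

/-- A bounded density whose normalisation is close to `R ≪ Q` in total variation. -/
lemma exists_truncation {Q R : ProbabilityMeasure X} (hRQ : (R : Measure X) ≪ (Q : Measure X))
    {η : ℝ} (hη : 0 < η) : ∃ (φ : X → ℝ≥0∞) (Λ : ℝ≥0) (R' : ProbabilityMeasure X),
      Measurable φ ∧ (∀ x, φ x ≤ 1) ∧ 0 < Λ ∧
      (Q : Measure X).withDensity φ = Λ • (R' : Measure X) ∧ rho R' R ≤ η := by
  set κ := (R : Measure X).rnDeriv (Q : Measure X) with hκ
  have hR : (Q : Measure X).withDensity κ = (R : Measure X) :=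
    Measure.withDensity_rnDeriv_eq _ _ hRQ
  have hκm : Measurable κ := Measure.measurable_rnDeriv _ _
  have hint : ∫⁻ x, κ x ∂(Q : Measure X) = 1 := by
    have : ∫⁻ x, κ x ∂(Q : Measure X) = (R : Measure X) Set.univ := by
      rw [← hR, withDensity_apply _ MeasurableSet.univ, Measure.restrict_univ]
    rw [this, measure_univ]
  have hlim : Tendsto (fun K : ℕ => ∫⁻ x, min (κ x) K ∂(Q : Measure X)) atTop
      (𝓝 (∫⁻ x, κ x ∂(Q : Measure X))) := by
    refine lintegral_tendsto_of_tendsto_of_monotone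
      (fun n => (hκm.min measurable_const).aemeasurable)
      (Filter.Eventually.of_forall fun x a b hab => min_le_min le_rfl (Nat.cast_le.2 hab))
      (Filter.Eventually.of_forall fun x => ?_)
    have := (tendsto_const_nhds (x := κ x)).min ENNReal.tendsto_nat_nhds_top
    simpa using this
  rw [hint] at hlim
  have hlt : ENNReal.ofReal (1 - η) < 1 := by
    rw [← ENNReal.ofReal_one]
    exact (ENNReal.ofReal_lt_ofReal_iff (by norm_num)).2 (by linarith)
  obtain ⟨K, hK, hK1⟩ := ((hlim.eventually_const_lt hlt).and (eventually_ge_atTop 1)).exists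
  set g : X → ℝ≥0∞ := fun x => min (κ x) K with hg
  have hgm : Measurable g := hκm.min measurable_const
  set s : ℝ≥0∞ := ∫⁻ x, g x ∂(Q : Measure X) with hs
  have hs0 : s ≠ 0 := (lt_of_le_of_lt (zero_le) hK).ne'
  have hs1 : s ≤ 1 := by
    rw [← hint]; exact lintegral_mono fun x => min_le_left _ _
  have hstop : s ≠ ⊤ := (hs1.trans_lt ENNReal.one_lt_top).ne
  have hK0 : (K : ℝ≥0∞) ≠ 0 := by
    have : K ≠ 0 := by omega
    exact_mod_cast this
  have hKtop : (K : ℝ≥0∞) ≠ ⊤ := ENNReal.natCast_ne_top K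
  have hSuniv : (Q : Measure X).withDensity g Set.univ = s := by
    rw [withDensity_apply _ MeasurableSet.univ, Measure.restrict_univ]
  have hprob : IsProbabilityMeasure (s⁻¹ • (Q : Measure X).withDensity g) := by
    constructor
    rw [Measure.smul_apply, hSuniv, smul_eq_mul, ENNReal.inv_mul_cancel hs0 hstop]
  obtain ⟨R', hR'⟩ : ∃ R' : ProbabilityMeasure X,
      (R' : Measure X) = s⁻¹ • (Q : Measure X).withDensity g := ⟨⟨_, hprob⟩, rfl⟩
  have hSR : (Q : Measure X).withDensity g = s • (R' : Measure X) := by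
    rw [hR', smul_smul, ENNReal.mul_inv_cancel hs0 hstop, one_smul]
  have hΛtop : (K : ℝ≥0∞)⁻¹ * s ≠ ⊤ := ENNReal.mul_ne_top (ENNReal.inv_ne_top.2 hK0) hstop
  have hΛ0 : (K : ℝ≥0∞)⁻¹ * s ≠ 0 := mul_ne_zero (ENNReal.inv_ne_zero.2 hKtop) hs0
  refine ⟨fun x => (K : ℝ≥0∞)⁻¹ * g x, ((K : ℝ≥0∞)⁻¹ * s).toNNReal, R',
    hgm.const_mul _, fun x => ?_, ENNReal.toNNReal_pos hΛ0 hΛtop, ?_, ?_⟩
  · calc (K : ℝ≥0∞)⁻¹ * g x ≤ (K : ℝ≥0∞)⁻¹ * K := by gcongr; exact min_le_right _ _
      _ = 1 := ENNReal.inv_mul_cancel hK0 hKtop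
  · have h1 : (Q : Measure X).withDensity (fun x => (K : ℝ≥0∞)⁻¹ * g x) =
        (K : ℝ≥0∞)⁻¹ • (Q : Measure X).withDensity g := withDensity_smul _ hgm
    rw [h1, hSR, smul_smul]
    ext A hA
    rw [Measure.smul_apply, Measure.smul_apply, ENNReal.smul_def, ENNReal.coe_toNNReal hΛtop]
  · -- total variation estimate
    have hsr0 : 0 < s.toReal := ENNReal.toReal_pos hs0 hstop
    have hsr1 : s.toReal ≤ 1 := by
      have := ENNReal.toReal_mono ENNReal.one_ne_top hs1
      rwa [ENNReal.toReal_one] at this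
    have hsη : 1 - η ≤ s.toReal := (ENNReal.ofReal_le_iff_le_toReal hstop).1 hK.le
    have hle : ∀ A, MeasurableSet A →
        (Q : Measure X).withDensity g A ≤ (R : Measure X) A := by
      intro A hA
      rw [← hR, withDensity_apply _ hA, withDensity_apply _ hA]
      exact lintegral_mono fun x => min_le_left _ _
    have hreal : ∀ A, ((Q : Measure X).withDensity g A).toReal =
        s.toReal * (R' : Measure X).real A := by
      intro A
      rw [hSR, Measure.smul_apply, smul_eq_mul, ENNReal.toReal_mul]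
      rfl
    have hle' : ∀ A, MeasurableSet A →
        s.toReal * (R' : Measure X).real A ≤ (R : Measure X).real A := by
      intro A hA
      rw [← hreal A]
      exact ENNReal.toReal_mono (measure_ne_top _ _) (hle A hA)
    refine rho_le fun A hA => ?_
    have h1 := hle' A hA
    have h2 := hle' Aᶜ hA.compl
    rw [probReal_compl_eq_one_sub hA, probReal_compl_eq_one_sub hA] at h2
    have h3 := real_mem_Icc R' A
    rw [abs_le]
    constructor <;> nlinarith [h3.1, h3.2]

end Pool.Agent.Y626.PAC
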