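import Mathlib
import Pool.Agent.Y626.PAC.Eq

set_option autoImplicit false

/-!
# Learnability only depends on the measure class
-/

open MeasureTheory Filter Topology ProbabilityTheory
open scoped ENNReal NNReal

namespace Pool.Agent.Y626.PAC

open Pool.Agent.Results.MP_ab635e_lc.Full

variable {X : Type*} [MeasurableSpace X]

/-- A learner for `R` can be simulated with samples from any `Q` such that `R ≪ Q`. -/
theorem simulate {F : Set (X → unitInterval)} (hF : ∀ f ∈ F, Measurable f)
    (hne : Nonempty F) {Q R : ProbabilityMeasure X}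
    (hRQ : (R : Measure X) ≪ (Q : Measure X)) (hR : Learn1 F R) {θ δ : ℝ} (hθ : 0 < θ)
    (hδ : 0 < δ) : ∃ (M : ℕ) (B : (Fin M → X × unitInterval) → F), ∀ f ∈ F,
      (Measure.pi fun _ : Fin M => (Q : Measure X))
        {x | θ < dist1 R f (B fun j => (x j, f (x j)))} ≤ ENNReal.ofReal δ := by
  classical
  obtain ⟨m, A, hA⟩ := hR (θ / 2) (by linarith) (1 / 32) (by norm_num)
  obtain ⟨φ, Λ, R', hφm, hφ1, hΛ, hφ, hR'⟩ :=
    exists_truncation hRQ (η := (1 / 32) / (m + 1)) (by positivity)
  have hΛ' : (0 : ℝ) < Λ := by exact_mod_cast hΛ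
  set c : ℝ := 7 / 8 * (Λ : ℝ) ^ m with hcdef
  have hc : 0 < c := by positivity
  obtain ⟨J, hJ⟩ := exists_nat_gt (1 / (δ * c ^ 2))
  have hJpos : 0 < J := by
    have h0 : (0 : ℝ) ≤ 1 / (δ * c ^ 2) := by positivity
    exact_mod_cast h0.trans_lt hJ
  have hJbound : 1 / (J * c ^ 2) ≤ δ := by
    have hJ' : (0 : ℝ) < J := by exact_mod_cast hJpos
    rw [div_lt_iff₀ (by positivity)] at hJ
    rw [div_le_iff₀ (by positivity)]
    nlinarith
  -- the learner
  let wt : (Fin m → X) → ℝ := fun y => (∏ j, φ (y j)).toReal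
  have hprod1 : ∀ (y : Fin m → X), ∏ j, φ (y j) ≤ 1 := fun y =>
    Finset.prod_le_one' fun j _ => hφ1 (y j)
  have hwt0 : ∀ y, 0 ≤ wt y := fun y => ENNReal.toReal_nonneg
  have hwt1 : ∀ y, wt y ≤ 1 := fun y => by
    have := ENNReal.toReal_mono ENNReal.one_ne_top (hprod1 y)
    rwa [ENNReal.toReal_one] at this
  let e : Fin J × Fin m → Fin (J * m) := finProdFinEquiv
  have he : Function.Injective e := finProdFinEquiv.injective
  let Maj : F → (Fin (J * m) → X × unitInterval) → Prop := fun h z =>
    0 < ∑ b, wt (fun j => (z (e (b, j))).1) *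
      (if θ / 2 < dist1 R h (A fun j => z (e (b, j))) then -1 else 1)
  let B : (Fin (J * m) → X × unitInterval) → F := fun z =>
    if hex : ∃ h : F, Maj h z then hex.choose else hne.some
  have hB : ∀ z, (∃ h : F, Maj h z) → Maj (B z) z := fun z hex => by
    simp only [B]; rw [dif_pos hex]; exact hex.choose_spec
  refine ⟨J * m, B, fun f hf => ?_⟩
  let bad : Set (Fin m → X) :=
    {y | θ / 2 < dist1 R f (A fun j => (y j, f (y j)))}
  obtain ⟨C, hC1, hC2, hC3⟩ : ∃ C : Set (Fin m → X), bad ⊆ C ∧ MeasurableSet C ∧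
      (Measure.pi fun _ : Fin m => (Q : Measure X).withDensity φ) C ≤
        ENNReal.ofReal ((Λ : ℝ) ^ m / 16) := by
    refine ⟨toMeasurable (Measure.pi fun _ : Fin m => (R' : Measure X)) bad,
      subset_toMeasurable _ _, measurableSet_toMeasurable _ _, ?_⟩
    have h1 : (Measure.pi fun _ : Fin m => (R' : Measure X)) bad ≤
        ENNReal.ofReal (1 / 16) := by
      calc (Measure.pi fun _ : Fin m => (R' : Measure X)) bad
          ≤ (Measure.pi fun _ : Fin m => (R : Measure X)) bad +
            m * ENNReal.ofReal (rho R' R) := pi_le_add R' R m _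
        _ ≤ ENNReal.ofReal (1 / 32) + ENNReal.ofReal (1 / 32) := by
            refine add_le_add (hA f hf) ?_
            exact nat_mul_ofReal_le (nat_mul_div_le (by norm_num) hR')
        _ = ENNReal.ofReal (1 / 16) := by
            rw [← ENNReal.ofReal_add (by norm_num) (by norm_num)]; norm_num
    have h2 : (fun _ : Fin m => (Q : Measure X).withDensity φ) =
        fun _ : Fin m => Λ • (R' : Measure X) := by
      funext _; exact hφ
    rw [h2, pi_smul_const, Measure.smul_apply, measure_toMeasurable, ENNReal.smul_def,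
      smul_eq_mul]
    calc ((Λ ^ m : ℝ≥0) : ℝ≥0∞) * (Measure.pi fun _ : Fin m => (R' : Measure X)) bad
        ≤ ((Λ ^ m : ℝ≥0) : ℝ≥0∞) * ENNReal.ofReal (1 / 16) := by gcongr
      _ = ENNReal.ofReal ((Λ : ℝ) ^ m / 16) := by
          rw [← ENNReal.ofReal_coe_nnreal, ← ENNReal.ofReal_mul (NNReal.coe_nonneg _)]
          congr 1; push_cast; ring
  let D : (Fin m → X) → ℝ := fun y => wt y * (if y ∈ C then -1 else 1)
  have hDm : Measurable D := by
    refine Measurable.mul ?_ ?_
    · refine Measurable.ennreal_toReal ?_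
      exact Finset.measurable_prod _ fun j _ => hφm.comp (measurable_pi_apply j)
    · exact Measurable.ite hC2 measurable_const measurable_const
  have hDb : ∀ y, |D y| ≤ 1 := by
    intro y
    simp only [D]
    rw [abs_mul, abs_of_nonneg (hwt0 y)]
    have : |(if y ∈ C then (-1 : ℝ) else 1)| = 1 := by split_ifs <;> simp
    rw [this, mul_one]; exact hwt1 y
  have hDmean : c ≤ ∫ y, D y ∂(Measure.pi fun _ : Fin m => (Q : Measure X)) := by
    have hWm : Measurable fun y : Fin m → X => ∏ j, φ (y j) :=
      Finset.measurable_prod _ fun j _ => hφm.comp (measurable_pi_apply j)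
    have hpi : (Measure.pi fun _ : Fin m => (Q : Measure X).withDensity φ) =
        (Measure.pi fun _ : Fin m => (Q : Measure X)).withDensity
          fun y => ∏ j, φ (y j) := pi_withDensity (Q : Measure X) hφm hφ1 m
    have hset : ∀ E : Set (Fin m → X), MeasurableSet E →
        ∫ y in E, wt y ∂(Measure.pi fun _ : Fin m => (Q : Measure X)) =
          ((Measure.pi fun _ : Fin m => (Q : Measure X).withDensity φ) E).toReal := by
      intro E hE
      rw [hpi, withDensity_apply _ hE]
      refine integral_toReal hWm.aemeasurable ?_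
      exact Filter.Eventually.of_forall fun y => (hprod1 y).trans_lt ENNReal.one_lt_top
    have hwtm : Measurable wt := hWm.ennreal_toReal
    have hwti : Integrable wt (Measure.pi fun _ : Fin m => (Q : Measure X)) := by
      refine Integrable.of_bound hwtm.aestronglyMeasurable 1 ?_
      exact Filter.Eventually.of_forall fun y => by
        rw [Real.norm_eq_abs, abs_of_nonneg (hwt0 y)]; exact hwt1 y
    have hDeq : ∀ y, D y = wt y - 2 * C.indicator wt y := by
      intro y
      simp only [D]
      by_cases hy : y ∈ C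
      · rw [if_pos hy, Set.indicator_of_mem hy]; ring
      · rw [if_neg hy, Set.indicator_of_notMem hy]; ring
    have hmean1 : ∫ y, wt y ∂(Measure.pi fun _ : Fin m => (Q : Measure X)) =
        (Λ : ℝ) ^ m := by
      rw [← setIntegral_univ, hset _ MeasurableSet.univ, hφ, pi_smul_const, Measure.smul_apply,
        measure_univ, ENNReal.smul_def, smul_eq_mul, mul_one]
      simp
    have hmean2 : ∫ y in C, wt y ∂(Measure.pi fun _ : Fin m => (Q : Measure X)) ≤
        (Λ : ℝ) ^ m / 16 := by
      rw [hset _ hC2]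
      have h0 : (0 : ℝ) ≤ (Λ : ℝ) ^ m / 16 := by positivity
      exact ENNReal.toReal_le_of_le_ofReal h0 hC3
    simp_rw [hDeq]
    rw [integral_sub hwti ((hwti.indicator hC2).const_mul 2), integral_const_mul,
      integral_indicator hC2, hmean1]
    rw [hcdef]
    linarith
  -- the key deterministic implication
  have hdet : ∀ x : Fin (J * m) → X,
      0 < ∑ b, D (fun j => x (e (b, j))) → dist1 R f (B fun i => (x i, f (x i))) ≤ θ := by
    intro x hx
    set z : Fin (J * m) → X × unitInterval := fun i => (x i, f (x i)) with hz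
    have hfMaj : Maj ⟨f, hf⟩ z := by
      refine lt_of_lt_of_le hx (Finset.sum_le_sum fun b _ => ?_)
      simp only [D]
      refine mul_le_mul_of_nonneg_left ?_ (hwt0 _)
      by_cases hb : (fun j => x (e (b, j))) ∈ C
      · rw [if_pos hb]; split_ifs <;> norm_num
      · rw [if_neg hb]
        have hnb : ¬ (θ / 2 < dist1 R f (A fun j => z (e (b, j)))) := fun hcon =>
          hb (hC1 hcon)
        rw [if_neg hnb]
    have hBMaj : Maj (B z) z := hB z ⟨_, hfMaj⟩
    have hBm : Measurable (B z : X → unitInterval) := hF _ (B z).2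
    have hfm : Measurable f := hF f hf
    have h3 := add_pos hfMaj hBMaj
    rw [← Finset.sum_add_distrib] at h3
    obtain ⟨b, _, hb⟩ := Finset.exists_lt_of_sum_lt (s := Finset.univ)
      (f := fun _ : Fin J => (0 : ℝ)) (by simpa using h3)
    have hw0 := hwt0 (fun j => (z (e (b, j))).1)
    set bb : Fin m → X × unitInterval := fun j => z (e (b, j)) with hbb
    have hAm : Measurable (A bb : X → unitInterval) := hF _ (A bb).2
    have hf1 : ¬ (θ / 2 < dist1 R f (A bb)) := by
      intro hcon
      have hcon' : θ / 2 < dist1 R (⟨f, hf⟩ : F) (A bb) := hcon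
      rw [if_pos hcon'] at hb
      split_ifs at hb <;> nlinarith
    have hf2 : ¬ (θ / 2 < dist1 R (B z) (A bb)) := by
      intro hcon
      rw [if_pos hcon] at hb
      split_ifs at hb
      nlinarith
    have h4 := dist1_triangle R hfm hAm hBm
    rw [dist1_comm R (A bb) (B z)] at h4
    push Not at hf1 hf2
    linarith
  -- probability bound
  let Sbad : Set (Fin J → Fin m → X) := {y | ∑ b, D (y b) ≤ 0}
  calc (Measure.pi fun _ : Fin (J * m) => (Q : Measure X))
        {x | θ < dist1 R f (B fun j => (x j, f (x j)))}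
      ≤ (Measure.pi fun _ : Fin (J * m) => (Q : Measure X))
        {x | (fun p : Fin J × Fin m => x (e p)) ∈
          {x' : Fin J × Fin m → X | (fun b j => x' (b, j)) ∈ Sbad}} := by
        refine measure_mono fun x hx => ?_
        simp only [Set.mem_ofPred_eq] at hx ⊢
        by_contra hcon
        exact absurd hx (not_lt.2 (hdet x (not_le.1 hcon)))
    _ ≤ (Measure.pi fun _ : Fin J × Fin m => (Q : Measure X))
          {x' : Fin J × Fin m → X | (fun b j => x' (b, j)) ∈ Sbad} :=
        pi_comp_le (Q : Measure X) e he _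
    _ ≤ (Measure.pi fun _ : Fin J => Measure.pi fun _ : Fin m => (Q : Measure X)) Sbad :=
        pi_block_le (Q : Measure X) Sbad
    _ ≤ ENNReal.ofReal (1 / (J * c ^ 2)) := chebyshev _ hDm hDb hc hDmean hJpos
    _ ≤ ENNReal.ofReal δ := ENNReal.ofReal_le_ofReal hJbound

/-- Learnability is local: it is enough that every set of positive `Q`-measure is charged by some
`R ≪ Q` for which the class is learnable. -/
theorem learn1_of_local {F : Set (X → unitInterval)} (hF : ∀ f ∈ F, Measurable f)
    (hne : Nonempty F) {Q : ProbabilityMeasure X}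
    (h : ∀ E : Set X, MeasurableSet E → (Q : Measure X) E ≠ 0 → ∃ R : ProbabilityMeasure X,
      (R : Measure X) ≪ (Q : Measure X) ∧ (R : Measure X) E ≠ 0 ∧ Learn1 F R) :
    Learn1 F Q := by
  classical
  intro ε hε δ hδ
  let Rs : Set (ProbabilityMeasure X) :=
    {R | (R : Measure X) ≪ (Q : Measure X) ∧ Learn1 F R}
  obtain ⟨t, ht, htQ⟩ := exists_finite_carrier (Q := Q) (Rs := Rs) (fun R hR => hR.1)
    (fun E hE hQE => by
      obtain ⟨R, h1, h2, h3⟩ := h E hE hQE
      exact ⟨R, ⟨h1, h3⟩, h2⟩) (ε := ε / 2) (by linarith)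
  let S : ProbabilityMeasure X → Set X := fun R =>
    {x | 0 < (R : Measure X).rnDeriv (Q : Measure X) x}
  have hS : ∀ R, MeasurableSet (S R) := fun R =>
    measurableSet_lt measurable_const (Measure.measurable_rnDeriv _ _)
  set U : Set X := ⋃ R ∈ t, S R with hU
  have hUm : MeasurableSet U := Finset.measurableSet_biUnion _ fun R _ => hS R
  let μ : Measure X := ∑ R ∈ t, (R : Measure X)
  have hμfin : IsFiniteMeasure μ := by
    refine ⟨?_⟩
    simp only [μ]
    rw [Measure.finsetSum_apply]
    exact ENNReal.sum_lt_top.2 fun R _ => measure_lt_top _ _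
  have hac1 : ∀ R ∈ t, (Q : Measure X).restrict (S R) ≪ (R : Measure X) := by
    intro R hR
    have hd : (Q : Measure X).withDensity ((R : Measure X).rnDeriv (Q : Measure X)) =
        (R : Measure X) := Measure.withDensity_rnDeriv_eq _ _ (ht R hR).1
    have h1 : (Q : Measure X).restrict (S R) ≪ ((Q : Measure X).restrict (S R)).withDensity
        ((R : Measure X).rnDeriv (Q : Measure X)) := by
      refine withDensity_absolutelyContinuous' (Measure.measurable_rnDeriv _ _).aemeasurable ?_
      rw [ae_restrict_iff' (hS R)]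
      exact Filter.Eventually.of_forall fun x hx => (pos_iff_ne_zero.1 hx)
    rw [← restrict_withDensity (hS R), hd] at h1
    exact h1.trans Measure.restrict_le_self.absolutelyContinuous
  have hac : (Q : Measure X).restrict U ≪ μ := by
    refine Measure.AbsolutelyContinuous.mk fun s hs hμs => ?_
    simp only [μ] at hμs
    rw [Measure.finsetSum_apply, Finset.sum_eq_zero_iff] at hμs
    rw [Measure.restrict_apply hs, hU, Set.inter_iUnion₂]
    refine le_antisymm ((measure_biUnion_finset_le t _).trans
      (le_of_eq (Finset.sum_eq_zero fun R hR => ?_))) (zero_le)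
    have h2 := hac1 R hR (hμs R hR)
    rwa [Measure.restrict_apply hs] at h2
  have hνle : (Q : Measure X).restrict U Set.univ ≤ 1 := by
    rw [Measure.restrict_apply_univ]; exact prob_le_one
  obtain ⟨θ, hθ, hθ2⟩ := lintegral_transfer hac hνle (ε := ε / 2) (by linarith)
  set θ' : ℝ := θ / (t.card + 1) with hθ'
  have hθ'pos : 0 < θ' := by positivity
  -- small distances for all members of `t` give a small distance for `Q`
  have hdist : ∀ f g : X → unitInterval, Measurable f → Measurable g →
      (∀ R ∈ t, dist1 R f g ≤ θ') → dist1 Q f g ≤ ε := by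
    intro f g hf hg hfg
    set u : X → ℝ≥0∞ := fun x => ENNReal.ofReal |(f x : ℝ) - (g x : ℝ)| with hu
    have hum : Measurable u :=
      (by fun_prop : Measurable fun x => |(f x : ℝ) - (g x : ℝ)|).ennreal_ofReal
    have hu1 : ∀ x, u x ≤ 1 := fun x => by
      simp only [hu]
      rw [← ENNReal.ofReal_one]; exact ENNReal.ofReal_le_ofReal (abs_sub_unit_le_one _ _)
    have hfinR : ∀ S : ProbabilityMeasure X, ∫⁻ x, u x ∂(S : Measure X) ≠ ⊤ := by
      intro S
      refine ne_of_lt (lt_of_le_of_lt (b := ∫⁻ _, (1 : ℝ≥0∞) ∂(S : Measure X)) ?_ (by simp))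
      exact lintegral_mono hu1
    have h1 : ∫⁻ x, u x ∂μ ≤ ENNReal.ofReal θ := by
      simp only [μ]
      rw [lintegral_finsetSum_measure]
      calc ∑ R ∈ t, ∫⁻ x, u x ∂(R : Measure X) ≤ ∑ _R ∈ t, ENNReal.ofReal θ' := by
            refine Finset.sum_le_sum fun R hR => ?_
            have h2 := hfg R hR
            rw [lintegral_dist1 R hf hg] at h2
            exact (ENNReal.le_ofReal_iff_toReal_le (hfinR R) hθ'pos.le).2 h2
        _ = (t.card : ℝ≥0∞) * ENNReal.ofReal θ' := by rw [Finset.sum_const, nsmul_eq_mul]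
        _ ≤ ENNReal.ofReal θ := nat_mul_ofReal_le (nat_mul_div_le hθ.le le_rfl)
    have h3 := hθ2 u hum hu1 h1
    rw [lintegral_dist1 Q hf hg]
    refine ENNReal.toReal_le_of_le_ofReal hε.le ?_
    change ∫⁻ x, u x ∂(Q : Measure X) ≤ ENNReal.ofReal ε
    calc ∫⁻ x, u x ∂(Q : Measure X)
        = ∫⁻ x in U, u x ∂(Q : Measure X) + ∫⁻ x in Uᶜ, u x ∂(Q : Measure X) :=
          (lintegral_add_compl u hUm).symm
      _ ≤ ENNReal.ofReal (ε / 2) + ∫⁻ _ in Uᶜ, 1 ∂(Q : Measure X) := by
          refine add_le_add h3 (lintegral_mono hu1)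
      _ = ENNReal.ofReal (ε / 2) + (Q : Measure X) Uᶜ := by simp
      _ ≤ ENNReal.ofReal (ε / 2) + ENNReal.ofReal (ε / 2) := by gcongr
      _ = ENNReal.ofReal ε := by
          rw [← ENNReal.ofReal_add (by linarith) (by linarith)]
          congr 1; ring
  -- simulated learners
  have hsim : ∀ R : ProbabilityMeasure X, ∃ (M : ℕ) (B : (Fin M → X × unitInterval) → F),
      R ∈ t → ∀ f ∈ F, (Measure.pi fun _ : Fin M => (Q : Measure X))
        {x | θ' / 2 < dist1 R f (B fun j => (x j, f (x j)))} ≤
          ENNReal.ofReal (δ / (t.card + 1)) := by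
    intro R
    by_cases hR : R ∈ t
    · obtain ⟨M, B, hB⟩ := simulate hF hne (ht R hR).1 (ht R hR).2 (θ := θ' / 2)
        (δ := δ / (t.card + 1)) (by positivity) (by positivity)
      exact ⟨M, B, fun _ => hB⟩
    · exact ⟨0, fun _ => hne.some, fun h => absurd h hR⟩
  choose M B hB using hsim
  have hle : ∀ R ∈ t, M R ≤ t.sup M := fun R hR => Finset.le_sup hR
  let Bs : (R : ProbabilityMeasure X) → R ∈ t → (Fin (t.sup M) → X × unitInterval) → F :=
    fun R hR z => B R fun i => z (Fin.castLE (hle R hR) i)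
  let Good : F → (Fin (t.sup M) → X × unitInterval) → Prop := fun h z =>
    ∀ R (hR : R ∈ t), dist1 R h (Bs R hR z) ≤ θ' / 2
  let C : (Fin (t.sup M) → X × unitInterval) → F := fun z =>
    if hex : ∃ h : F, Good h z then hex.choose else hne.some
  have hC : ∀ z, (∃ h : F, Good h z) → Good (C z) z := fun z hex => by
    simp only [C]; rw [dif_pos hex]; exact hex.choose_spec
  refine ⟨t.sup M, C, fun f hf => ?_⟩
  let Bad : (R : ProbabilityMeasure X) → Set (Fin (t.sup M) → X) := fun R =>
    {x | ∃ hR : R ∈ t, θ' / 2 < dist1 R f (Bs R hR fun j => (x j, f (x j)))}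
  have hBad : ∀ R ∈ t, (Measure.pi fun _ : Fin (t.sup M) => (Q : Measure X)) (Bad R) ≤
      ENNReal.ofReal (δ / (t.card + 1)) := by
    intro R hR
    refine le_trans ?_ (hB R hR f hf)
    refine le_trans (measure_mono ?_) (pi_comp_le (Q : Measure X) (Fin.castLE (hle R hR))
      (Fin.castLE_injective (hle R hR))
      {y | θ' / 2 < dist1 R f (B R fun j => (y j, f (y j)))})
    rintro x ⟨_, hx⟩
    exact hx
  calc fail Q C f ε
      ≤ (Measure.pi fun _ : Fin (t.sup M) => (Q : Measure X)) (⋃ R ∈ t, Bad R) := by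
        refine measure_mono fun x hx => ?_
        by_contra hcon
        change ε < dist1 Q f (C fun j => (x j, f (x j))) at hx
        refine absurd hx (not_lt.2 ?_)
        set z : Fin (t.sup M) → X × unitInterval := fun j => (x j, f (x j)) with hz
        have hfGood : Good ⟨f, hf⟩ z := by
          intro R hR
          by_contra hlt
          exact hcon (Set.mem_iUnion₂.2 ⟨R, hR, hR, not_le.1 hlt⟩)
        have hCG := hC z ⟨_, hfGood⟩
        refine hdist f (C z) (hF f hf) (hF _ (C z).2) fun R hR => ?_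
        have h1 := hfGood R hR
        have h2 := hCG R hR
        have h3 := dist1_triangle R (hF f hf) (hF _ (Bs R hR z).2) (hF _ (C z).2)
        rw [dist1_comm R (Bs R hR z) (C z)] at h3
        have h1' : dist1 R f (Bs R hR z) ≤ θ' / 2 := h1
        linarith
    _ ≤ ∑ R ∈ t, (Measure.pi fun _ : Fin (t.sup M) => (Q : Measure X)) (Bad R) :=
        measure_biUnion_finset_le _ _
    _ ≤ ∑ _R ∈ t, ENNReal.ofReal (δ / (t.card + 1)) := Finset.sum_le_sum hBad
    _ = (t.card : ℝ≥0∞) * ENNReal.ofReal (δ / (t.card + 1)) := by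
        rw [Finset.sum_const, nsmul_eq_mul]
    _ ≤ ENNReal.ofReal δ := nat_mul_ofReal_le (nat_mul_div_le hδ.le le_rfl)

end Pool.Agent.Y626.PAC
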